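import Pool.Agent.Lib.H62u.PB.PB_Top
set_option autoImplicit false
namespace H62
theorem PB_chk1 : go1 (lin1 (nat_lit 1048576) (nat_lit 326579)) 8 PB_c1 C4.c2 PB_c0 = true := by decide +kernel
end H62
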