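import Pool.Agent.Lib.H62u.PB.PB_Top
set_option autoImplicit false
namespace H62
theorem PB_chk2 : go2 (lin2 (nat_lit 1048576) (nat_lit 326579) (nat_lit 1474939)) 8 PB_c2 C4.c3 PB_c1 PB_root = true := by decide +kernel
end H62
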