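import Pool.Agent.Lib.H62u.PB.PB_Top
set_option autoImplicit false
namespace H62
theorem PB_chkB : blk qmin 9 PB_root = true := by decide +kernel
end H62
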