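import Pool.Agent.Lib.H62u.PB.PB_0
set_option autoImplicit false
set_option linter.all false
namespace H62
noncomputable def PB_c0 : (Tri (Tri (Tri (Tri (Tri (Tri (Tri (Tri B0)))))))) := ⟨⟨
PB_0,PB_9,PB_18⟩,⟨
PB_3,PB_12,PB_21⟩,⟨
PB_6,PB_15,PB_24⟩⟩
noncomputable def PB_c1 : (Tri (Tri (Tri (Tri (Tri (Tri (Tri (Tri B0)))))))) := ⟨⟨
PB_1,PB_10,PB_19⟩,⟨
PB_4,PB_13,PB_22⟩,⟨
PB_7,PB_16,PB_25⟩⟩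
noncomputable def PB_c2 : (Tri (Tri (Tri (Tri (Tri (Tri (Tri (Tri B0)))))))) := ⟨⟨
PB_2,PB_11,PB_20⟩,⟨
PB_5,PB_14,PB_23⟩,⟨
PB_8,PB_17,PB_26⟩⟩
noncomputable def PB_root : (Tri (Tri (Tri (Tri (Tri (Tri (Tri (Tri (Tri B0))))))))) := ⟨PB_c0,PB_c1,PB_c2⟩
end H62
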